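import Pool.Agent.LYL.Two

/-!
# Appending a directed ray, and the general linear case (MP_1e1a68_co)
-/

set_option autoImplicit false

namespace Pool.Agent.LYL

variable {V A : Type}

/-- Tails after appending a directed ray at `t`. -/
def xt (tail : A → V) (t : V) : A ⊕ ℕ → V ⊕ ℕ
  | Sum.inl a => Sum.inl (tail a)
  | Sum.inr 0 => Sum.inl t
  | Sum.inr (n + 1) => Sum.inr n

/-- Heads after appending a directed ray. -/
def xh (head : A → V) : A ⊕ ℕ → V ⊕ ℕ
  | Sum.inl a => Sum.inl (head a)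
  | Sum.inr n => Sum.inr n

variable {tail head : A → V} {t : V}

lemma ext_t {X : Set (V ⊕ ℕ)} (h : Closed (xt tail t) (xh head) X) {n : ℕ}
    (hn : Sum.inr n ∈ X) : Sum.inl t ∈ X := by
  induction n with
  | zero => exact h (Sum.inr 0) hn
  | succ n ih => exact ih (h (Sum.inr (n + 1)) hn)

lemma ext_down {X : Set (V ⊕ ℕ)} (h : Closed (xt tail t) (xh head) X) {n m : ℕ}
    (hm : m ≤ n) (hn : Sum.inr n ∈ X) : Sum.inr m ∈ X := by
  induction n with
  | zero => rwa [Nat.le_zero.1 hm]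
  | succ n ih =>
    rcases Nat.lt_or_ge m (n + 1) with h1 | h1
    · exact ih (by omega) (h (Sum.inr (n + 1)) hn)
    · rwa [show m = n + 1 by omega]

lemma ext_closed {X : Set (V ⊕ ℕ)} (h : Closed (xt tail t) (xh head) X) :
    Closed tail head (Sum.inl ⁻¹' X) := fun a ha => h (Sum.inl a) ha

lemma ext_dcut (X : Set (V ⊕ ℕ)) :
    dcut tail head (Sum.inl ⁻¹' X) = Sum.inl ⁻¹' dcut (xt tail t) (xh head) X := rfl

lemma ext_univ (hW : WC tail head) (ht : ∀ X, Good tail head X → t ∉ X) {X : Set (V ⊕ ℕ)}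
    (h : Closed (xt tail t) (xh head) X) (hf : (dcut (xt tail t) (xh head) X).Finite)
    (htX : Sum.inl t ∈ X) : ∀ v : V, Sum.inl v ∈ X := by
  have h1 : Sum.inl ⁻¹' X = (Set.univ : Set V) := by
    refine hW _ ⟨t, htX⟩ (ext_closed h) ?_
    by_contra h2
    rw [← ne_eq, ← Set.nonempty_iff_ne_empty] at h2
    refine ht (Sum.inl ⁻¹' X) ⟨ext_closed h, ?_, h2⟩ htX
    rw [ext_dcut (t := t)]
    exact hf.preimage Sum.inl_injective.injOn
  intro v
  have : v ∈ (Sum.inl ⁻¹' X : Set V) := by rw [h1]; trivial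
  exact this

lemma ext_good {X : Set V} (hX : Good tail head X) (htX : t ∉ X) :
    Good (xt tail t) (xh head) (Sum.inl '' X) := by
  have h1 : dcut (xt tail t) (xh head) (Sum.inl '' X) = Sum.inl '' dcut tail head X := by
    ext a
    rcases a with a | n
    · simp only [dcut, xt, xh, Set.mem_ofPred_eq, Set.mem_image, Sum.inl.injEq, exists_eq_right]
    · rcases n with _ | n
      · simp [dcut, xt, xh, htX]
      · simp [dcut, xt, xh]
  refine ⟨?_, ?_, ?_⟩
  · rintro (a | n) ha
    · obtain ⟨v, hv, h2⟩ := ha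
      have : v = head a := Sum.inl_injective h2
      subst this
      exact ⟨_, hX.1 a hv, rfl⟩
    · obtain ⟨v, hv, h2⟩ := ha
      simp [xh] at h2
  · rw [h1]; exact hX.2.1.image _
  · rw [h1]; exact hX.2.2.image _

lemma ext_WC (hW : WC tail head) : WC (xt tail t) (xh head) := by
  intro X hX hc hd
  have hstep : ∀ a, xt tail t a ∈ X → xh head a ∈ X := by
    intro a ha
    by_contra h
    have : a ∈ dcut (xt tail t) (xh head) X := ⟨ha, h⟩
    rw [hd] at this
    exact this
  have hne : ∃ v : V, Sum.inl v ∈ X := by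
    obtain ⟨v | n, hx⟩ := hX
    · exact ⟨v, hx⟩
    · exact ⟨t, ext_t hc hx⟩
  obtain ⟨v, hv⟩ := hne
  have h1 : Sum.inl ⁻¹' X = (Set.univ : Set V) := by
    refine hW _ ⟨v, hv⟩ (ext_closed hc) ?_
    rw [ext_dcut (t := t), hd]
    rfl
  have h2 : ∀ v : V, Sum.inl v ∈ X := by
    intro v
    have : v ∈ (Sum.inl ⁻¹' X : Set V) := by rw [h1]; trivial
    exact this
  ext x
  simp only [Set.mem_univ, iff_true]
  rcases x with v | n
  · exact h2 v
  · induction n with
    | zero => exact hstep (Sum.inr 0) (h2 t)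
    | succ n ih => exact hstep (Sum.inr (n + 1)) ih

lemma ext_Lin (hW : WC tail head) (hL : Lin tail head) (ht : ∀ X, Good tail head X → t ∉ X) :
    Lin (xt tail t) (xh head) := by
  have hA : ∀ X, Good (xt tail t) (xh head) X → Sum.inl t ∉ X →
      Good tail head (Sum.inl ⁻¹' X) := by
    intro X hX htX
    have h1 := good_of (tail := tail) (head := head) hW (ext_closed hX.1)
      (by rw [ext_dcut (t := t)]; exact hX.2.1.preimage Sum.inl_injective.injOn)
    refine h1 ?_ ?_
    · obtain ⟨v | n, hx⟩ := hX.nonempty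
      · exact ⟨v, hx⟩
      · exact (htX (ext_t hX.1 hx)).elim
    · intro h2
      have : t ∈ (Sum.inl ⁻¹' X : Set V) := by rw [h2]; trivial
      exact htX this
  have hB : ∀ X, Good (xt tail t) (xh head) X → Sum.inl t ∈ X → ∃ n, Sum.inr n ∉ X := by
    intro X hX htX
    obtain ⟨v | n, hx⟩ := hX.compl_nonempty
    · exact (hx (ext_univ hW ht hX.1 hX.2.1 htX v)).elim
    · exact ⟨n, hx⟩
  have hC : ∀ X, Good (xt tail t) (xh head) X → ∃ v : V, Sum.inl v ∈ X := by
    intro X hX
    obtain ⟨v | n, hx⟩ := hX.nonempty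
    · exact ⟨v, hx⟩
    · exact ⟨t, ext_t hX.1 hx⟩
  -- a far vertex outside
  have hD : ∀ X, Good (xt tail t) (xh head) X → ∃ n, ∀ m, n ≤ m → Sum.inr m ∉ X := by
    intro X hX
    by_cases h : Sum.inl t ∈ X
    · obtain ⟨n, hn⟩ := hB X hX h
      exact ⟨n, fun m hm h2 => hn (ext_down hX.1 hm h2)⟩
    · exact ⟨0, fun m _ h2 => h (ext_t hX.1 h2)⟩
  intro X Y hX hY
  constructor
  · by_cases h1 : Sum.inl t ∈ X
    · obtain ⟨v, hv⟩ := hC Y hY
      exact ⟨_, ext_univ hW ht hX.1 hX.2.1 h1 v, hv⟩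
    · by_cases h2 : Sum.inl t ∈ Y
      · obtain ⟨v, hv⟩ := hC X hX
        exact ⟨_, hv, ext_univ hW ht hY.1 hY.2.1 h2 v⟩
      · obtain ⟨v, hv1, hv2⟩ := (hL _ _ (hA X hX h1) (hA Y hY h2)).1
        exact ⟨_, hv1, hv2⟩
  · obtain ⟨n, hn⟩ := hD X hX
    obtain ⟨m, hm⟩ := hD Y hY
    intro h
    have : (Sum.inr (max n m) : V ⊕ ℕ) ∈ X ∪ Y := by rw [h]; trivial
    rcases this with h1 | h1
    · exact hn _ (le_max_left _ _) h1
    · exact hm _ (le_max_right _ _) h1

/-- The initial pieces of the appended ray. -/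
lemma ext_TI (v : V ⊕ ℕ) : ∃ X, Good (xt tail t) (xh head) X ∧ v ∈ X := by
  have h : ∀ k : ℕ, Good (xt tail t) (xh head)
      {x | ∀ n, x = Sum.inr n → n < k} := by
    intro k
    have h1 : dcut (xt tail t) (xh head) {x | ∀ n, x = Sum.inr n → n < k} = {Sum.inr k} := by
      ext a
      rcases a with a | n
      · simp [dcut, xt, xh]
      · rcases n with _ | n
        · simp only [dcut, xt, xh, Set.mem_ofPred_eq, Set.mem_singleton_iff, Sum.inr.injEq]
          constructor
          · rintro ⟨_, h2⟩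
            push Not at h2
            obtain ⟨m, rfl, h3⟩ := h2
            omega
          · rintro rfl
            refine ⟨fun n h => by simp at h, fun h => ?_⟩
            exact absurd (h 0 rfl) (by omega)
        · simp only [dcut, xt, xh, Set.mem_ofPred_eq, Set.mem_singleton_iff, Sum.inr.injEq]
          constructor
          · rintro ⟨h1, h2⟩
            push Not at h2
            obtain ⟨m, rfl, h3⟩ := h2
            have := h1 n rfl
            omega
          · rintro rfl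
            refine ⟨fun m h => by omega, fun h => ?_⟩
            exact absurd (h _ rfl) (by omega)
    refine ⟨?_, ?_, ?_⟩
    · rintro (a | n) ha m hm
      · simp [xt] at hm
      · rcases n with _ | n
        · simp [xt] at hm
        · have h2 := ha (n + 1) rfl
          simp only [xt, Sum.inr.injEq] at hm
          omega
    · rw [h1]; exact Set.finite_singleton _
    · rw [h1]; exact Set.singleton_nonempty _
  rcases v with v | n
  · exact ⟨_, h 0, fun n hn => by simp at hn⟩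
  · refine ⟨_, h (n + 1), fun m hm => ?_⟩
    have := Sum.inr_injective hm
    omega

lemma ext_SI (ht : ∀ X, Good tail head X → t ∉ X) (hS : ∀ v, ∃ X, Good tail head X ∧ v ∉ X)
    (v : V ⊕ ℕ) : ∃ X, Good (xt tail t) (xh head) X ∧ v ∉ X := by
  rcases v with v | n
  · obtain ⟨X, hX, hv⟩ := hS v
    exact ⟨_, ext_good hX (ht X hX), fun h => by
      obtain ⟨w, hw, h2⟩ := h
      rw [Sum.inl_injective h2] at hw
      exact hv hw⟩
  · obtain ⟨X, hX, hv⟩ := hS t
    exact ⟨_, ext_good hX (ht X hX), fun h => by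
      obtain ⟨w, hw, h2⟩ := h
      simp at h2⟩

lemma ext_concl (hW : WC tail head) (ht : ∀ X, Good tail head X → t ∉ X)
    (h : Concl (xt tail t) (xh head)) : Concl tail head := by
  obtain ⟨𝒞, F, h1, h2, h3, h4, h5⟩ := h
  refine ⟨{C | Sum.inl '' C ∈ 𝒞}, Sum.inl ⁻¹' F, ?_, ?_, ?_, ?_, ?_⟩
  · intro C hC
    obtain ⟨h6, h7, X, hX, hCX⟩ := h1 _ hC
    refine ⟨Set.Finite.of_finite_image h6 Sum.inl_injective.injOn, Set.image_nonempty.1 h7,
      Sum.inl ⁻¹' X, fun a ha => hX (Sum.inl a) ha, ?_⟩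
    ext a
    have h8 : a ∈ C ↔ (Sum.inl a : A ⊕ ℕ) ∈ Sum.inl '' C := by simp
    rw [h8, hCX]
    rfl
  · intro C hC C' hC' hne
    have h6 := h2 _ hC _ hC' (fun h => hne (Sum.inl_injective.image_injective h))
    rw [Set.disjoint_left] at h6 ⊢
    intro a ha ha'
    exact h6 ⟨a, ha, rfl⟩ ⟨a, ha', rfl⟩
  · intro a ha
    obtain ⟨C', hC', haC⟩ := h3 ha
    obtain ⟨h6, h7, X, hX, hCX⟩ := h1 _ hC'
    have hac : (Sum.inl a : A ⊕ ℕ) ∈ dcut (xt tail t) (xh head) X := by
      rw [hCX] at haC; exact haC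
    have htX : Sum.inl t ∉ X := by
      intro h8
      refine hac.2 (ext_univ hW ht hX ?_ h8 _)
      have h9 : dcut (xt tail t) (xh head) X = C' := hCX.symm
      rw [h9]; exact h6
    have hC'' : Sum.inl '' (Sum.inl ⁻¹' C' : Set A) = C' := by
      ext b
      rcases b with b | n
      · simp
      · simp only [Set.mem_image, Set.mem_preimage, reduceCtorEq, and_false, exists_false,
          false_iff]
        intro hb
        rw [hCX] at hb
        rcases n with _ | n
        · exact htX hb.1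
        · exact htX (ext_t (tail := tail) (head := head) hX (n := n) hb.1)
    refine ⟨Sum.inl ⁻¹' C', ?_, haC⟩
    change Sum.inl '' (Sum.inl ⁻¹' C' : Set A) ∈ 𝒞
    rw [hC'']; exact hC'
  · intro C hC
    obtain ⟨a', ha'⟩ := h4 _ hC
    have h6 : a' ∈ Sum.inl '' C ∩ F := by rw [ha']; rfl
    obtain ⟨⟨a, ha, rfl⟩, haF⟩ := h6
    refine ⟨a, ?_⟩
    ext b
    constructor
    · rintro ⟨hb1, hb2⟩
      have h7 : (Sum.inl b : A ⊕ ℕ) ∈ Sum.inl '' C ∩ F := ⟨⟨b, hb1, rfl⟩, hb2⟩
      rw [ha'] at h7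
      exact Sum.inl_injective h7
    · rintro rfl
      exact ⟨ha, haF⟩
  · rintro C hf hn ⟨X, hX, rfl⟩
    have hG : Good tail head X := ⟨hX, hf, hn⟩
    have hG' := ext_good hG (ht X hG)
    obtain ⟨a', ha1, ha2⟩ := h5 (dcut (xt tail t) (xh head) (Sum.inl '' X)) hG'.2.1 hG'.2.2
      ⟨_, hG'.1, rfl⟩
    rcases a' with a | n
    · refine ⟨a, ?_, ha2⟩
      obtain ⟨h6, h7⟩ := ha1
      constructor
      · obtain ⟨v, hv, h8⟩ := h6
        rwa [Sum.inl_injective h8] at hv
      · intro h8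
        exact h7 ⟨_, h8, rfl⟩
    · exfalso
      have h6 : xt tail t (Sum.inr n) ∈ Sum.inl '' X := ha1.1
      rcases n with _ | n
      · obtain ⟨v, hv, h8⟩ := h6
        rw [Sum.inl_injective h8] at hv
        exact ht X hG hv
      · obtain ⟨v, hv, h8⟩ := h6
        simp [xt] at h8

end Pool.Agent.LYL
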