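import Pool.Agent.LYL.Pot

/-!
# Path duality for finite families and the final compactness argument (MP_1e1a68_co)
-/

set_option autoImplicit false

namespace Pool.Agent.LYL

variable {V A : Type} {tail head : A → V}

/-- The vertices reachable with at most `n` edges, jumps along the family being free. -/
def Reach (tail head : A → V) (𝓕 : Set (Set V)) : ℕ → Set V
  | 0 => {x | ∀ Z ∈ 𝓕, x ∈ Z}
  | n + 1 => {x | x ∈ Reach tail head 𝓕 n ∨
      ∃ a, tail a ∈ Reach tail head 𝓕 n ∧ ∀ Z ∈ 𝓕, head a ∈ Z → x ∈ Z}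

lemma reach_jump {𝓕 : Set (Set V)} {n : ℕ} {y x : V} (hy : y ∈ Reach tail head 𝓕 n)
    (h : ∀ Z ∈ 𝓕, y ∈ Z → x ∈ Z) : x ∈ Reach tail head 𝓕 n := by
  induction n with
  | zero => exact fun Z hZ => h Z hZ (hy Z hZ)
  | succ n ih =>
    rcases hy with hy | ⟨a, ha, h2⟩
    · exact Or.inl (ih hy)
    · exact Or.inr ⟨a, ha, fun Z hZ h3 => h Z hZ (h2 Z hZ h3)⟩

lemma reach_path {𝓕 : Set (Set V)} {n : ℕ} {x : V} (hx : x ∈ Reach tail head 𝓕 n) :
    ∃ F : Finset A, F.card ≤ n ∧ ∀ Z ∈ 𝓕, x ∉ Z → ∃ a ∈ F, a ∈ dcut tail head Z := by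
  classical
  induction n generalizing x with
  | zero => exact ⟨∅, by simp, fun Z hZ h => (h (hx Z hZ)).elim⟩
  | succ n ih =>
    rcases hx with hx | ⟨a, ha, h2⟩
    · obtain ⟨F, hF, h3⟩ := ih hx
      exact ⟨F, hF.trans (Nat.le_succ n), h3⟩
    · obtain ⟨F, hF, h3⟩ := ih ha
      refine ⟨insert a F, (Finset.card_insert_le _ _).trans (by omega), fun Z hZ h4 => ?_⟩
      by_cases h5 : tail a ∈ Z
      · exact ⟨a, Finset.mem_insert_self _ _, h5, fun h6 => h4 (h2 Z hZ h6)⟩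
      · obtain ⟨b, hb, h6⟩ := h3 Z hZ h5
        exact ⟨b, Finset.mem_insert_of_mem hb, h6⟩

/-- Path duality: if no potential adapted to the finite family `𝓕` gains more than `M`, then
`M` edges meet all dicuts of the family. -/
theorem path {𝓕 : Set (Set V)} (hfin : 𝓕.Finite)
    (hF : ∀ Z ∈ 𝓕, Closed tail head Z ∧ (dcut tail head Z).Finite) (t : V)
    (ht : ∀ Z ∈ 𝓕, t ∉ Z) (M : ℕ)
    (hM : ∀ (f : V → ℤ) (r : ℤ), Pot tail head f → (∀ x, (∀ Z ∈ 𝓕, x ∈ Z) → f x = 0) →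
      (∀ x, (∀ Z ∈ 𝓕, x ∉ Z) → f x = r) → r ≤ M) :
    ∃ F : Finset A, F.card ≤ M ∧ ∀ Z ∈ 𝓕, ∃ a ∈ F, a ∈ dcut tail head Z := by
  classical
  set R := Reach tail head 𝓕 with hR
  suffices h : t ∈ R M by
    obtain ⟨F, hF1, hF2⟩ := reach_path h
    exact ⟨F, hF1, fun Z hZ => hF2 Z hZ (ht Z hZ)⟩
  by_contra hcon
  have hs : ∀ n, R n ⊆ R (n + 1) := fun n x hx => Or.inl hx
  have hmono : Monotone R := monotone_nat_of_le_succ hs
  have hcl : ∀ n, Closed tail head (R n) := by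
    intro n a ha
    exact reach_jump ha fun Z hZ h => (hF Z hZ).1 a h
  have hstep : ∀ n a, tail a ∈ R n → head a ∈ R (n + 1) :=
    fun n a ha => Or.inr ⟨a, ha, fun Z hZ h => h⟩
  have hbd : ∀ n, dcut tail head (R n) ⊆ ⋃ Z ∈ 𝓕, dcut tail head Z := by
    rintro n a ⟨h1, h2⟩
    by_contra h3
    apply h2
    refine reach_jump h1 fun Z hZ h4 => ?_
    by_contra h5
    apply h3
    simp only [Set.mem_iUnion]
    exact ⟨Z, hZ, h4, h5⟩
  have hbf : (⋃ Z ∈ 𝓕, dcut tail head Z).Finite := hfin.biUnion fun Z hZ => (hF Z hZ).2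
  set f : V → ℤ := fun x => ∑ n ∈ Finset.range (M + 1), if x ∈ R n then 0 else 1 with hf
  have hfP : Pot tail head f := by
    refine ⟨fun a => ⟨?_, ?_⟩, fun i => ?_⟩
    · refine Finset.sum_le_sum fun n _ => ?_
      by_cases h : head a ∈ R n
      · simp [h, hcl n a h]
      · simp only [h, if_false]
        split_ifs <;> norm_num
    · simp only [hf]
      rw [Finset.sum_range_succ', Finset.sum_range_succ]
      have h1 : ∑ k ∈ Finset.range M, (if head a ∈ R (k + 1) then (0 : ℤ) else 1)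
          ≤ ∑ k ∈ Finset.range M, (if tail a ∈ R k then (0 : ℤ) else 1) := by
        refine Finset.sum_le_sum fun n _ => ?_
        by_cases h : tail a ∈ R n
        · simp [h, hstep n a h]
        · simp only [h, if_false]
          split_ifs <;> norm_num
      have h2 : (if head a ∈ R 0 then (0 : ℤ) else 1) ≤ 1 := by split_ifs <;> norm_num
      have h3 : (0 : ℤ) ≤ (if tail a ∈ R M then (0 : ℤ) else 1) := by split_ifs <;> norm_num
      linarith
    · refine hbf.subset ?_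
      rintro a ⟨h1, h2⟩
      by_contra h3
      have h4 : ∀ n, head a ∈ R n ↔ tail a ∈ R n := by
        intro n
        refine ⟨hcl n a, fun h5 => ?_⟩
        by_contra h6
        exact h3 (hbd n ⟨h5, h6⟩)
      have h5 : f (head a) = f (tail a) := by
        simp only [hf, h4]
      omega
  have h0 : ∀ x, (∀ Z ∈ 𝓕, x ∈ Z) → f x = 0 := by
    intro x hx
    refine Finset.sum_eq_zero fun n _ => ?_
    have : x ∈ R n := hmono (Nat.zero_le n) hx
    simp [this]
  have h1 : ∀ x, (∀ Z ∈ 𝓕, x ∉ Z) → f x = M + 1 := by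
    intro x hx
    have h2 : ∀ n ∈ Finset.range (M + 1), (if x ∈ R n then (0 : ℤ) else 1) = 1 := by
      intro n hn
      rw [if_neg]
      intro h3
      apply hcon
      refine hmono (by simpa [Nat.lt_succ_iff] using hn : n ≤ M) ?_
      exact reach_jump h3 fun Z hZ h4 => (hx Z hZ h4).elim
    rw [hf]
    simp only
    rw [Finset.sum_congr rfl h2]
    simp
  have := hM f _ hfP h0 h1
  omega

/-- The conclusion of the infinite Lucchesi-Younger conjecture. -/
def Concl (tail head : A → V) : Prop :=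
  ∃ (𝒞 : Set (Set A)) (F : Set A),
    (∀ C ∈ 𝒞, C.Finite ∧ C.Nonempty ∧
        ∃ X : Set V, (∀ a : A, head a ∈ X → tail a ∈ X) ∧
          C = {a : A | tail a ∈ X ∧ head a ∉ X}) ∧
    (∀ C ∈ 𝒞, ∀ C' ∈ 𝒞, C ≠ C' → Disjoint C C') ∧
    F ⊆ ⋃₀ 𝒞 ∧
    (∀ C ∈ 𝒞, ∃ a : A, C ∩ F = {a}) ∧
    (∀ C : Set A, C.Finite → C.Nonempty →
        (∃ X : Set V, (∀ a : A, head a ∈ X → tail a ∈ X) ∧
          C = {a : A | tail a ∈ X ∧ head a ∉ X}) →
        (C ∩ F).Nonempty)

/-- The final step: a potential optimal on exhausting intervals yields an admissible pair. -/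
theorem concl_of_pot (p : V → ℤ) (hp : Pot tail head p)
    (hne : ∀ i : ℤ, ∃ a, p (tail a) < i ∧ i ≤ p (head a))
    (S T : ℕ → Set V) (hT : ∀ N, (T N).Nonempty)
    (hcof : ∀ Z, Good tail head Z → ∃ N0, ∀ N, N0 ≤ N → S N ⊆ Z ∧ ∀ x ∈ T N, x ∉ Z)
    (lo hi : ℕ → ℤ) (hlo : ∀ N, ∀ x ∈ S N, p x ≤ lo N) (hhi : ∀ N, ∀ x ∈ T N, hi N ≤ p x)
    (hle : ∀ N, lo N ≤ hi N)
    (hopt : ∀ N (f : V → ℤ) (r : ℤ), Pot tail head f → (∀ x ∈ S N, f x = 0) →
      (∀ x ∈ T N, f x = r) → r ≤ hi N - lo N) :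
    Concl tail head := by
  classical
  set D : ℤ → Set A := fun i => {a | p (tail a) < i ∧ i ≤ p (head a)} with hD
  have hDf : ∀ i, (D i).Finite := hp.2
  have hDe : ∀ i a, a ∈ D i → p (head a) = i := by
    rintro i a ⟨h1, h2⟩
    have := hp.1 a
    omega
  -- the finite intersection property
  have key : ∀ 𝓕 : Finset (Set V), (∀ Z ∈ 𝓕, Good tail head Z) →
      ∃ f : ℤ → A, (∀ i, f i ∈ D i) ∧ ∀ Z ∈ 𝓕, ∃ i, f i ∈ dcut tail head Z := by
    intro 𝓕 h𝓕
    have hN : ∃ N, ∀ Z ∈ 𝓕, S N ⊆ Z ∧ ∀ x ∈ T N, x ∉ Z := by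
      have : ∃ N0, ∀ N, N0 ≤ N → ∀ Z ∈ 𝓕, S N ⊆ Z ∧ ∀ x ∈ T N, x ∉ Z := by
        induction 𝓕 using Finset.induction_on with
        | empty => exact ⟨0, by simp⟩
        | @insert Z s _ ih =>
          obtain ⟨N1, h1⟩ := ih fun Z hZ => h𝓕 Z (Finset.mem_insert_of_mem hZ)
          obtain ⟨N2, h2⟩ := hcof Z (h𝓕 Z (Finset.mem_insert_self _ _))
          refine ⟨max N1 N2, fun N hN Z' hZ' => ?_⟩
          rcases Finset.mem_insert.1 hZ' with rfl | hZ'
          · exact h2 N (le_trans (le_max_right _ _) hN)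
          · exact h1 N (le_trans (le_max_left _ _) hN) Z' hZ'
      obtain ⟨N0, h⟩ := this
      exact ⟨N0, h N0 le_rfl⟩
    obtain ⟨N, hN⟩ := hN
    set lev : ℤ → Set V := fun i => {x | p x < i} with hlev
    have hdl : ∀ i, dcut tail head (lev i) = D i := by
      intro i
      ext a
      simp only [dcut, hlev, hD, Set.mem_ofPred_eq, not_lt]
    set 𝓖 : Set (Set V) := ↑𝓕 ∪ lev '' (Set.Ioc (lo N) (hi N)) with h𝓖
    have hG1 : ∀ Z ∈ 𝓖, Closed tail head Z ∧ (dcut tail head Z).Finite := by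
      rintro Z (hZ | ⟨i, hi', rfl⟩)
      · exact ⟨(h𝓕 Z hZ).1, (h𝓕 Z hZ).2.1⟩
      · refine ⟨fun a ha => ?_, ?_⟩
        · exact lt_of_le_of_lt (hp.1 a).1 ha
        · rw [hdl]; exact hDf i
    have hG2 : ∀ Z ∈ 𝓖, S N ⊆ Z ∧ ∀ x ∈ T N, x ∉ Z := by
      rintro Z (hZ | ⟨i, hi', rfl⟩)
      · exact hN Z hZ
      · refine ⟨fun x hx => lt_of_le_of_lt (hlo N x hx) hi'.1, fun x hx h => ?_⟩
        have h1 := hhi N x hx
        have h2 := hi'.2
        have h3 : p x < i := h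
        omega
    obtain ⟨t, ht⟩ := hT N
    obtain ⟨F, hF1, hF2⟩ := path (𝓕 := 𝓖) (tail := tail) (head := head)
      ((Finset.finite_toSet 𝓕).union ((Set.finite_Ioc _ _).image _)) hG1 t
      (fun Z hZ => (hG2 Z hZ).2 t ht) (hi N - lo N).toNat (by
        intro f r hf hf0 hfr
        have h1 := hopt N f r hf (fun x hx => hf0 x fun Z hZ => (hG2 Z hZ).1 hx)
          (fun x hx => hfr x fun Z hZ => (hG2 Z hZ).2 x hx)
        have := hle N
        omega)
    have hg : ∀ i, ∃ a, a ∈ D i ∧ (i ∈ Set.Ioc (lo N) (hi N) → a ∈ F) := by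
      intro i
      by_cases h : i ∈ Set.Ioc (lo N) (hi N)
      · obtain ⟨a, ha, h2⟩ := hF2 (lev i) (Or.inr ⟨i, h, rfl⟩)
        rw [hdl] at h2
        exact ⟨a, h2, fun _ => ha⟩
      · obtain ⟨a, h1, h2⟩ := hne i
        exact ⟨a, ⟨h1, h2⟩, fun h3 => (h h3).elim⟩
    choose f hf1 hf2 using hg
    refine ⟨f, hf1, fun Z hZ => ?_⟩
    obtain ⟨a, ha, h2⟩ := hF2 Z (Or.inl hZ)
    -- all edges of `F` are of the form `f i`
    have himg : (Finset.Ioc (lo N) (hi N)).image f = F := by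
      refine Finset.eq_of_subset_of_card_le ?_ ?_
      · intro b hb
        obtain ⟨i, hi', rfl⟩ := Finset.mem_image.1 hb
        exact hf2 i (by simpa using hi')
      · rw [Finset.card_image_of_injOn]
        · rw [Int.card_Ioc]
          exact hF1
        · intro i _ j _ hij
          have h3 := hDe i _ (hf1 i)
          have h4 := hDe j _ (hf1 j)
          rw [← h3, ← h4, hij]
    rw [← himg] at ha
    obtain ⟨i, _, rfl⟩ := Finset.mem_image.1 ha
    exact ⟨i, h2⟩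
  -- compactness
  have comp : ∃ f : ℤ → A, (∀ i, f i ∈ D i) ∧
      ∀ Z, Good tail head Z → ∃ i, f i ∈ dcut tail head Z := by
    have hfinD : ∀ i, Finite (D i) := fun i => (hDf i).to_subtype
    let _ : ∀ i, TopologicalSpace (D i) := fun i => ⊥
    have _ : ∀ i, DiscreteTopology (D i) := fun i => ⟨rfl⟩
    have hcomp : CompactSpace (∀ i, D i) := inferInstance
    set K : {Z : Set V // Good tail head Z} → Set (∀ i, D i) :=
      fun Z => {f | ∃ i, (f i : A) ∈ dcut tail head Z.1} with hK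
    have hKc : ∀ Z, IsClosed (K Z) := by
      intro Z
      have : K Z = ⋃ i ∈ (fun a => p (head a)) '' dcut tail head Z.1,
          {f : ∀ i, D i | (f i : A) ∈ dcut tail head Z.1} := by
        ext f
        simp only [hK, Set.mem_ofPred_eq, Set.mem_iUnion]
        constructor
        · rintro ⟨i, hi'⟩
          exact ⟨i, ⟨_, hi', hDe i _ (f i).2⟩, hi'⟩
        · rintro ⟨i, _, hi'⟩
          exact ⟨i, hi'⟩
      rw [this]
      refine Set.Finite.isClosed_biUnion (Z.2.2.1.image _) fun i _ => ?_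
      have hcl : IsClosed {a : D i | (a : A) ∈ dcut tail head Z.1} := isClosed_discrete _
      exact hcl.preimage (continuous_apply (A := fun i => D i) i)
    have hne' : (⋂ Z, K Z).Nonempty := by
      rw [Set.nonempty_iff_ne_empty]
      intro hemp
      obtain ⟨u, hu⟩ := hcomp.isCompact_univ.elim_finite_subfamily_closed K hKc
        (by rw [hemp, Set.inter_empty])
      obtain ⟨f, hf1, hf2⟩ := key (u.image Subtype.val) (by
        intro Z hZ
        obtain ⟨Z', _, rfl⟩ := Finset.mem_image.1 hZ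
        exact Z'.2)
      have : (fun i => (⟨f i, hf1 i⟩ : D i)) ∈ (Set.univ ∩ ⋂ i ∈ u, K i) := by
        refine ⟨trivial, ?_⟩
        simp only [Set.mem_iInter]
        intro Z hZ
        exact hf2 Z.1 (Finset.mem_image_of_mem _ hZ)
      rw [hu] at this
      exact this
    obtain ⟨f, hf⟩ := hne'
    refine ⟨fun i => (f i : A), fun i => (f i).2, fun Z hZ => ?_⟩
    have := Set.mem_iInter.1 hf ⟨Z, hZ⟩
    exact this
  obtain ⟨f, hf1, hf2⟩ := comp
  refine ⟨Set.range D, Set.range f, ?_, ?_, ?_, ?_, ?_⟩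
  · rintro C ⟨i, rfl⟩
    refine ⟨hDf i, hne i, {x | p x < i}, fun a ha => lt_of_le_of_lt (hp.1 a).1 ha, ?_⟩
    ext a
    simp only [hD, Set.mem_ofPred_eq, not_lt]
  · rintro C ⟨i, rfl⟩ C' ⟨j, rfl⟩ hij
    rw [Set.disjoint_left]
    intro a h1 h2
    apply hij
    rw [← hDe i a h1, ← hDe j a h2]
  · rintro a ⟨i, rfl⟩
    exact ⟨D i, ⟨i, rfl⟩, hf1 i⟩
  · rintro C ⟨i, rfl⟩
    refine ⟨f i, ?_⟩
    ext a
    simp only [Set.mem_inter_iff, Set.mem_range, Set.mem_singleton_iff]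
    constructor
    · rintro ⟨h1, j, rfl⟩
      have h2 := hDe i _ h1
      have h3 := hDe j _ (hf1 j)
      rw [← h2, h3]
    · rintro rfl
      exact ⟨hf1 i, i, rfl⟩
  · rintro C hC1 hC2 ⟨X, hX, rfl⟩
    obtain ⟨i, hi'⟩ := hf2 X ⟨hX, hC1, hC2⟩
    exact ⟨f i, hi', i, rfl⟩

end Pool.Agent.LYL
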