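import Mathlib

/-!
# Finite dicuts of infinite digraphs: potentials (MP_1e1a68_co)

Definitions and the calculus of potentials used for the linear case of the infinite
Lucchesi-Younger conjecture.
-/

set_option autoImplicit false

namespace Pool.Agent.LYL

variable {V A : Type}

/-- No edge enters `X`. -/
def Closed (tail head : A → V) (X : Set V) : Prop := ∀ a : A, head a ∈ X → tail a ∈ X

/-- The set of edges leaving `X`. -/
def dcut (tail head : A → V) (X : Set V) : Set A := {a | tail a ∈ X ∧ head a ∉ X}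

/-- `X` is the source side of a finite dicut. -/
def Good (tail head : A → V) (X : Set V) : Prop :=
  Closed tail head X ∧ (dcut tail head X).Finite ∧ (dcut tail head X).Nonempty

/-- Weak connectivity: every nonempty vertex set that no edge enters or leaves is everything. -/
def WC (tail head : A → V) : Prop :=
  ∀ X : Set V, X.Nonempty → Closed tail head X → dcut tail head X = ∅ → X = Set.univ

/-- Linearity: any two source sides of finite dicuts meet and do not cover. -/
def Lin (tail head : A → V) : Prop :=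
  ∀ X Y : Set V, Good tail head X → Good tail head Y → (X ∩ Y).Nonempty ∧ X ∪ Y ≠ Set.univ

/-- Along an edge the function stays or goes up by one. -/
def Lip (tail head : A → V) (f : V → ℤ) : Prop :=
  ∀ a : A, f (tail a) ≤ f (head a) ∧ f (head a) ≤ f (tail a) + 1

/-- A potential: a `Lip` function all of whose levels have finite boundary. -/
def Pot (tail head : A → V) (f : V → ℤ) : Prop :=
  Lip tail head f ∧ ∀ i : ℤ, {a : A | f (tail a) < i ∧ i ≤ f (head a)}.Finite

variable {tail head : A → V}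

lemma Good.nonempty {X : Set V} (h : Good tail head X) : X.Nonempty := by
  obtain ⟨a, ha⟩ := h.2.2
  exact ⟨_, ha.1⟩

lemma Good.compl_nonempty {X : Set V} (h : Good tail head X) : ∃ x, x ∉ X := by
  obtain ⟨a, ha⟩ := h.2.2
  exact ⟨_, ha.2⟩

lemma good_of (hW : WC tail head) {X : Set V} (hc : Closed tail head X)
    (hf : (dcut tail head X).Finite) (hn : X.Nonempty) (hu : X ≠ Set.univ) :
    Good tail head X := by
  refine ⟨hc, hf, ?_⟩
  rw [Set.nonempty_iff_ne_empty]
  intro h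
  exact hu (hW X hn hc h)

lemma Closed.union {X Y : Set V} (hX : Closed tail head X) (hY : Closed tail head Y) :
    Closed tail head (X ∪ Y) := by
  rintro a (h | h)
  · exact Or.inl (hX a h)
  · exact Or.inr (hY a h)

lemma Good.union (hW : WC tail head) (hL : Lin tail head) {X Y : Set V}
    (hX : Good tail head X) (hY : Good tail head Y) : Good tail head (X ∪ Y) := by
  refine good_of hW (hX.1.union hY.1) ((hX.2.1.union hY.2.1).subset ?_)
    (hX.nonempty.mono Set.subset_union_left) (hL X Y hX hY).2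
  rintro a ⟨h | h, h'⟩
  · exact Or.inl ⟨h, fun h2 => h' (Or.inl h2)⟩
  · exact Or.inr ⟨h, fun h2 => h' (Or.inr h2)⟩

lemma pot_const (c : ℤ) : Pot tail head (fun _ => c) := by
  refine ⟨fun a => ⟨le_rfl, by simp⟩, fun i => ?_⟩
  have : {a : A | c < i ∧ i ≤ c} = ∅ := by
    ext a
    simp only [Set.mem_ofPred_eq, Set.mem_empty_iff_false, iff_false]
    omega
  rw [this]
  exact Set.finite_empty

lemma pot_max {f g : V → ℤ} (hf : Pot tail head f) (hg : Pot tail head g) :
    Pot tail head (fun x => max (f x) (g x)) := by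
  refine ⟨fun a => ?_, fun i => ?_⟩
  · have h1 := hf.1 a
    have h2 := hg.1 a
    simp only
    omega
  · refine ((hf.2 i).union (hg.2 i)).subset ?_
    rintro a ⟨h1, h2⟩
    simp only at h1 h2
    simp only [Set.mem_union, Set.mem_ofPred_eq]
    omega

/-- Walks bound the oscillation of `Lip` functions. -/
lemma osc (hW : WC tail head) (x y : V) :
    ∃ L : ℤ, ∀ f : V → ℤ, Lip tail head f → |f y - f x| ≤ L := by
  have h : {y : V | ∃ L : ℤ, ∀ f : V → ℤ, Lip tail head f → |f y - f x| ≤ L} = Set.univ := by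
    refine hW _ ⟨x, 0, fun f _ => by simp⟩ ?_ ?_
    · rintro a ⟨L, hL⟩
      refine ⟨L + 1, fun f hf => ?_⟩
      have h1 := hL f hf
      have h2 := hf a
      rw [abs_le] at h1 ⊢
      omega
    · ext a
      simp only [dcut, Set.mem_ofPred_eq, Set.mem_empty_iff_false, iff_false, not_and, not_not]
      rintro ⟨L, hL⟩
      refine ⟨L + 1, fun f hf => ?_⟩
      have h1 := hL f hf
      have h2 := hf a
      rw [abs_le] at h1 ⊢
      omega
  have : y ∈ {y : V | ∃ L : ℤ, ∀ f : V → ℤ, Lip tail head f → |f y - f x| ≤ L} := by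
    rw [h]; trivial
  exact this

lemma pot_neg {f : V → ℤ} (hf : Pot head tail f) : Pot tail head (fun x => - f x) := by
  refine ⟨fun a => ?_, fun i => ?_⟩
  · have h1 := hf.1 a
    simp only
    omega
  · refine (hf.2 (-i + 1)).subset ?_
    rintro a ⟨h1, h2⟩
    simp only at h1 h2
    simp only [Set.mem_ofPred_eq]
    omega

/-- The distance function: the best values of potentials vanishing on `Y`. -/
lemma exists_dist (hW : WC tail head) {Y : Set V} (hY : Y.Nonempty) :
    ∃ d : V → ℤ, (∀ f, Pot tail head f → (∀ x ∈ Y, f x = 0) → ∀ x, f x ≤ d x) ∧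
      ∀ x, ∃ f, Pot tail head f ∧ (∀ y ∈ Y, f y = 0) ∧ f x = d x := by
  obtain ⟨y, hy⟩ := hY
  have h : ∀ x : V, ∃ k : ℤ, (∃ f, Pot tail head f ∧ (∀ y ∈ Y, f y = 0) ∧ f x = k) ∧
      ∀ k' : ℤ, (∃ f, Pot tail head f ∧ (∀ y ∈ Y, f y = 0) ∧ f x = k') → k' ≤ k := by
    intro x
    obtain ⟨L, hL⟩ := osc hW y x
    refine Int.exists_greatest_of_bdd ⟨L, ?_⟩ ⟨0, fun _ => 0, pot_const 0, fun _ _ => rfl, rfl⟩
    rintro k ⟨f, hf, hf0, rfl⟩
    have h1 := hL f hf.1
    rw [hf0 y hy, sub_zero] at h1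
    exact (le_abs_self _).trans h1
  choose d hd1 hd2 using h
  exact ⟨d, fun f hf hf0 x => hd2 x _ ⟨f, hf, hf0, rfl⟩, hd1⟩

/-- Simultaneous realisation on a finite set. -/
lemma realise {Y : Set V} {d : V → ℤ}
    (h1 : ∀ f, Pot tail head f → (∀ x ∈ Y, f x = 0) → ∀ x, f x ≤ d x)
    (h2 : ∀ x, ∃ f, Pot tail head f ∧ (∀ y ∈ Y, f y = 0) ∧ f x = d x)
    {W : Set V} (hW : W.Finite) :
    ∃ f, Pot tail head f ∧ (∀ y ∈ Y, f y = 0) ∧ ∀ w ∈ W, f w = d w := by
  induction W, hW using Set.Finite.induction_on with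
  | empty => exact ⟨fun _ => 0, pot_const 0, fun _ _ => rfl, fun w hw => hw.elim⟩
  | @insert a s _ _ ih =>
    obtain ⟨f, hf, hf0, hfs⟩ := ih
    obtain ⟨g, hg, hg0, hga⟩ := h2 a
    refine ⟨fun x => max (f x) (g x), pot_max hf hg, fun y hy => ?_, fun w hw => ?_⟩
    · simp [hf0 y hy, hg0 y hy]
    · rcases hw with rfl | hw
      · simp only [hga]
        exact max_eq_right (h1 f hf hf0 _)
      · simp only [hfs w hw]
        exact max_eq_left (h1 g hg hg0 _)

/-- Enlarging a source side so that it contains given vertices. -/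
lemma absorb (hW : WC tail head) (hL : Lin tail head) (hT : ∀ v, ∃ X, Good tail head X ∧ v ∈ X)
    {Y : Set V} (hY : Good tail head Y) {s : Set A} (hs : s.Finite) :
    ∃ Y', Good tail head Y' ∧ Y ⊆ Y' ∧ ∀ a ∈ s, head a ∈ Y' := by
  induction s, hs using Set.Finite.induction_on with
  | empty => exact ⟨Y, hY, le_rfl, fun a ha => ha.elim⟩
  | @insert a s _ _ ih =>
    obtain ⟨Y', h1, h2, h3⟩ := ih
    obtain ⟨X, hX, haX⟩ := hT (head a)
    refine ⟨Y' ∪ X, h1.union hW hL hX, h2.trans Set.subset_union_left, fun b hb => ?_⟩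
    rcases hb with rfl | hb
    · exact Or.inr haX
    · exact Or.inl (h3 b hb)

/-- The exhausting chain. -/
lemma exists_chain (hW : WC tail head) (hL : Lin tail head)
    (hT : ∀ v, ∃ X, Good tail head X ∧ v ∈ X) {Y0 : Set V} (hY0 : Good tail head Y0) :
    ∃ Y : ℕ → Set V, Y 0 = Y0 ∧ (∀ n, Good tail head (Y n)) ∧
      (∀ n, ∀ a ∈ dcut tail head (Y n), head a ∈ Y (n + 1)) ∧ (∀ n, Y n ⊆ Y (n + 1)) ∧
      ∀ x, ∃ n, x ∈ Y n := by
  have h : ∀ Y : {Y : Set V // Good tail head Y}, ∃ Y' : {Y : Set V // Good tail head Y},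
      Y.1 ⊆ Y'.1 ∧ ∀ a ∈ dcut tail head Y.1, head a ∈ Y'.1 := by
    rintro ⟨Y, hY⟩
    obtain ⟨Y', h1, h2, h3⟩ := absorb hW hL hT hY hY.2.1
    exact ⟨⟨Y', h1⟩, h2, h3⟩
  choose nx hn1 hn2 using h
  set Z : ℕ → {Y : Set V // Good tail head Y} := fun n => nx^[n] ⟨Y0, hY0⟩ with hZ
  have hZs : ∀ n, Z (n + 1) = nx (Z n) := by
    intro n
    simp only [hZ, Function.iterate_succ_apply']
  have hsub : ∀ n, (Z n).1 ⊆ (Z (n + 1)).1 := by
    intro n
    rw [hZs]; exact hn1 _
  have hhd : ∀ n, ∀ a ∈ dcut tail head (Z n).1, head a ∈ (Z (n + 1)).1 := by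
    intro n
    rw [hZs]; exact hn2 _
  refine ⟨fun n => (Z n).1, rfl, fun n => (Z n).2, hhd, hsub, ?_⟩
  have hU : {x | ∃ n, x ∈ (Z n).1} = Set.univ := by
    refine hW _ ?_ ?_ ?_
    · obtain ⟨x, hx⟩ := (Z 0).2.nonempty
      exact ⟨x, 0, hx⟩
    · rintro a ⟨n, hn⟩
      exact ⟨n, (Z n).2.1 a hn⟩
    · ext a
      simp only [Set.mem_empty_iff_false, iff_false]
      rintro ⟨⟨n, hn⟩, h2⟩
      by_cases h3 : head a ∈ (Z n).1
      · exact h2 ⟨n, h3⟩
      · exact h2 ⟨n + 1, hhd n a ⟨hn, h3⟩⟩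
  intro x
  have : x ∈ {x | ∃ n, x ∈ (Z n).1} := by rw [hU]; trivial
  exact this

end Pool.Agent.LYL
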