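import Pool.Agent.LYL.Pot

/-!
# Optimal rays (MP_1e1a68_co)
-/

set_option autoImplicit false

namespace Pool.Agent.LYL

variable {V A : Type} {tail head : A → V}

/-- The optimal ray starting from a source side `Y0`. -/
theorem ray (hW : WC tail head) (hL : Lin tail head)
    (hT : ∀ v, ∃ X, Good tail head X ∧ v ∈ X) {Y0 : Set V} (hY0 : Good tail head Y0) :
    ∃ p : V → ℤ, Pot tail head p ∧ (∀ x ∈ Y0, p x = 0) ∧ (∀ x, 0 ≤ p x) ∧
      (∀ N : ℤ, ∃ x, N ≤ p x) ∧
      ∀ N : ℤ, 1 ≤ N → ∀ (f : V → ℤ) (r : ℤ), Pot tail head f → (∀ x ∈ Y0, f x = 0) →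
        (∀ x, N ≤ p x → f x = r) → r ≤ N := by
  classical
  obtain ⟨d, hd1, hd2⟩ := exists_dist hW hY0.nonempty
  obtain ⟨Y, hY0', hYg, hYh, hYs, hYu⟩ := exists_chain hW hL hT hY0
  -- the rank function
  set ρ : V → ℕ := fun x => Nat.find (hYu x) with hρ
  have hmono : Monotone Y := monotone_nat_of_le_succ hYs
  have hρ1 : ∀ x n, ρ x ≤ n ↔ x ∈ Y n := by
    intro x n
    constructor
    · intro h
      exact hmono h (Nat.find_spec (hYu x))
    · intro h
      exact Nat.find_min' (hYu x) h
  have hρe : ∀ a, ρ (tail a) ≤ ρ (head a) ∧ ρ (head a) ≤ ρ (tail a) + 1 := by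
    intro a
    constructor
    · rw [hρ1]
      exact (hYg _).1 a ((hρ1 _ _).1 le_rfl)
    · rw [hρ1]
      by_cases h : head a ∈ Y (ρ (tail a))
      · exact hYs _ h
      · exact hYh _ a ⟨(hρ1 _ _).1 le_rfl, h⟩
  have hρP : Pot tail head (fun x => (ρ x : ℤ)) := by
    refine ⟨fun a => ?_, fun i => ?_⟩
    · have := hρe a
      simp only
      omega
    · refine ((hYg (i - 1).toNat).2.1).subset ?_
      rintro a ⟨h1, h2⟩
      simp only at h1 h2
      refine ⟨(hρ1 _ _).1 (by omega), fun h3 => ?_⟩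
      have := (hρ1 _ _).2 h3
      omega
  have hρ0 : ∀ x ∈ Y0, ρ x = 0 := by
    intro x hx
    have := (hρ1 x 0).2 (by rw [hY0']; exact hx)
    omega
  have hρd : ∀ x, (ρ x : ℤ) ≤ d x :=
    hd1 _ hρP (fun x hx => by simp [hρ0 x hx])
  have hd0 : ∀ x ∈ Y0, d x = 0 := by
    intro x hx
    obtain ⟨f, hf, hf0, hfx⟩ := hd2 x
    rw [← hfx, hf0 x hx]
  -- the distance is Lipschitz
  have hdL : Lip tail head d := by
    intro a
    constructor
    · obtain ⟨f, hf, hf0, hfx⟩ := hd2 (tail a)
      rw [← hfx]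
      exact (hf.1 a).1.trans (hd1 f hf hf0 _)
    · obtain ⟨f, hf, hf0, hfx⟩ := hd2 (head a)
      rw [← hfx]
      have h1 := (hf.1 a).2
      have h2 := hd1 f hf hf0 (tail a)
      omega
  -- endpoints of the boundaries
  set W : ℕ → Set V := fun n => tail '' dcut tail head (Y n) ∪ head '' dcut tail head (Y n)
    with hWdef
  have hWf : ∀ n, (W n).Finite := fun n => ((hYg n).2.1.image _).union ((hYg n).2.1.image _)
  have hσ : ∀ n, ∃ f, Pot tail head f ∧ (∀ y ∈ Y0, f y = 0) ∧ ∀ w ∈ W n ∪ W (n + 1), f w = d w :=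
    fun n => realise hd1 hd2 ((hWf n).union (hWf (n + 1)))
  choose σ hσP hσ0 hσW using hσ
  -- the ray: on rank `n + 1` use `σ n`
  set p : V → ℤ := fun x => if ρ x = 0 then 0 else max (σ (ρ x - 1) x) (ρ x) with hp
  have hp0 : ∀ x, ρ x = 0 → p x = 0 := fun x hx => by simp [hp, hx]
  have hp1 : ∀ x n, ρ x = n + 1 → p x = max (σ n x) (n + 1) := by
    intro x n hx
    simp [hp, hx]
  have hpρ : ∀ x, (ρ x : ℤ) ≤ p x := by
    intro x
    rcases Nat.eq_zero_or_pos (ρ x) with h | h
    · rw [hp0 x h, h]; simp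
    · obtain ⟨n, hn⟩ := Nat.exists_eq_succ_of_ne_zero h.ne'
      rw [hp1 x n hn, hn]
      push_cast
      exact le_max_right _ _
  -- values on the boundary
  have hcross : ∀ a, ρ (head a) = ρ (tail a) + 1 →
      p (tail a) = d (tail a) ∧ p (head a) = d (head a) := by
    intro a ha
    have hmem : a ∈ dcut tail head (Y (ρ (tail a))) := by
      refine ⟨(hρ1 _ _).1 le_rfl, fun h => ?_⟩
      have := (hρ1 _ _).2 h
      omega
    constructor
    · rcases Nat.eq_zero_or_pos (ρ (tail a)) with h | h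
      · rw [hp0 _ h]
        have h1 : tail a ∈ Y0 := by
          rw [← hY0']
          exact (hρ1 _ _).1 h.le
        rw [hd0 _ h1]
      · obtain ⟨n, hn⟩ := Nat.exists_eq_succ_of_ne_zero h.ne'
        have hw : tail a ∈ W n ∪ W (n + 1) := by
          right
          left
          rw [hn] at hmem
          exact ⟨a, hmem, rfl⟩
        rw [hp1 _ n hn, hσW n _ hw]
        have := hρd (tail a)
        rw [hn] at this
        push_cast at this
        exact max_eq_left this
    · have hw : head a ∈ W (ρ (tail a)) ∪ W (ρ (tail a) + 1) := by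
        left
        right
        exact ⟨a, hmem, rfl⟩
      rw [hp1 _ _ ha, hσW _ _ hw]
      have := hρd (head a)
      rw [ha] at this
      push_cast at this
      exact max_eq_left this
  have hpP : Pot tail head p := by
    refine ⟨fun a => ?_, fun i => ?_⟩
    · have h1 := hρe a
      rcases (by omega : ρ (head a) = ρ (tail a) ∨ ρ (head a) = ρ (tail a) + 1) with h | h
      · rcases Nat.eq_zero_or_pos (ρ (tail a)) with h0 | h0
        · rw [hp0 _ h0, hp0 _ (h.trans h0)]
          omega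
        · obtain ⟨n, hn⟩ := Nat.exists_eq_succ_of_ne_zero h0.ne'
          rw [hp1 _ n hn, hp1 _ n (h.trans hn)]
          have := (hσP n).1 a
          omega
      · obtain ⟨e1, e2⟩ := hcross a h
        rw [e1, e2]
        exact hdL a
    · have hfin : (⋃ n ∈ Finset.range i.toNat, ({a : A | σ n (tail a) < i ∧ i ≤ σ n (head a)} ∪
          dcut tail head (Y n))).Finite :=
        Set.Finite.biUnion (Finset.finite_toSet _) fun n _ => ((hσP n).2 i).union (hYg n).2.1
      refine hfin.subset ?_
      rintro a ⟨h1, h2⟩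
      have h3 := hpρ (tail a)
      have h4 := hρe a
      rcases (by omega : ρ (head a) = ρ (tail a) ∨ ρ (head a) = ρ (tail a) + 1) with h | h
      · rcases Nat.eq_zero_or_pos (ρ (tail a)) with h0 | h0
        · rw [hp0 _ h0] at h1
          rw [hp0 _ (h.trans h0)] at h2
          omega
        · obtain ⟨n, hn⟩ := Nat.exists_eq_succ_of_ne_zero h0.ne'
          rw [hp1 _ n hn] at h1
          rw [hp1 _ n (h.trans hn)] at h2
          simp only [Set.mem_iUnion]
          refine ⟨n, by simp only [Finset.mem_range]; omega, Or.inl ⟨?_, ?_⟩⟩ <;> omega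
      · simp only [Set.mem_iUnion]
        refine ⟨ρ (tail a), by simp only [Finset.mem_range]; omega, Or.inr ?_⟩
        refine ⟨(hρ1 _ _).1 le_rfl, fun h5 => ?_⟩
        have := (hρ1 _ _).2 h5
        omega
  have hpY : ∀ x ∈ Y0, p x = 0 := fun x hx => hp0 x (hρ0 x hx)
  -- far points where `p = d`
  have hfar : ∀ N : ℤ, ∃ x, N ≤ p x ∧ p x = d x := by
    intro N
    obtain ⟨a, ha⟩ := (hYg N.toNat).2.2
    have h1 : ρ (tail a) ≤ N.toNat := (hρ1 _ _).2 ha.1
    have h2 : ¬ ρ (head a) ≤ N.toNat := fun h => ha.2 ((hρ1 _ _).1 h)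
    have h3 := hρe a
    have h4 := hpρ (head a)
    exact ⟨head a, by omega, (hcross a (by omega)).2⟩
  refine ⟨p, hpP, hpY, fun x => le_trans (by positivity) (hpρ x),
    fun N => (hfar N).imp fun x hx => hx.1, ?_⟩
  intro N hN f r hf hf0 hfr
  -- glue
  have hτ : Pot tail head (fun x => if p x < N then f x else r + p x - N) := by
    refine ⟨fun a => ?_, fun i => ?_⟩
    · have h1 := hpP.1 a
      have h2 := hf.1 a
      by_cases ht : p (tail a) < N <;> by_cases hh : p (head a) < N
      · simp only [ht, hh, if_true]; exact h2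
      · have h3 := hfr (head a) (by omega)
        simp only [ht, hh, if_true, if_false]
        omega
      · omega
      · simp only [ht, hh, if_false]; omega
    · refine (((hf.2 i).union (hpP.2 N)).union (hpP.2 (i - r + N))).subset ?_
      rintro a ⟨h1, h2⟩
      have h0 := hpP.1 a
      simp only [Set.mem_union, Set.mem_ofPred_eq] at h1 h2 ⊢
      split_ifs at h1 h2 <;> omega
  obtain ⟨x, hx1, hx2⟩ := hfar N
  have h1 := hd1 _ hτ (fun y hy => by
    have := hpY y hy
    rw [if_pos (by omega)]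
    exact hf0 y hy) x
  simp only [not_lt.2 hx1, if_false] at h1
  omega

end Pool.Agent.LYL
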