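import Pool.Agent.LYL.Ray
import Pool.Agent.LYL.Path

/-!
# The two-sided case (MP_1e1a68_co)
-/

set_option autoImplicit false

namespace Pool.Agent.LYL

variable {V A : Type} {tail head : A → V}

lemma dcut_rev (X : Set V) : dcut head tail Xᶜ = dcut tail head X := by
  ext a
  simp only [dcut, Set.mem_ofPred_eq, Set.mem_compl_iff, not_not]
  tauto

lemma closed_rev {X : Set V} (h : Closed tail head X) : Closed head tail Xᶜ := by
  intro a ha hX
  exact ha (h a hX)

lemma Good.rev {X : Set V} (h : Good tail head X) : Good head tail Xᶜ := by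
  refine ⟨closed_rev h.1, ?_, ?_⟩
  · rw [dcut_rev]; exact h.2.1
  · rw [dcut_rev]; exact h.2.2

lemma WC.rev (hW : WC tail head) : WC head tail := by
  intro X hX h1 h2
  refine hW X hX ?_ ?_
  · intro a ha
    by_contra h3
    have : a ∈ dcut head tail X := ⟨ha, h3⟩
    rw [h2] at this
    exact this
  · ext a
    simp only [Set.mem_empty_iff_false, iff_false]
    rintro ⟨h3, h4⟩
    exact h4 (h1 a h3)

lemma Lin.rev (hL : Lin tail head) : Lin head tail := by
  intro X Y hX hY
  obtain ⟨⟨x, hx1, hx2⟩, h2⟩ := hL Xᶜ Yᶜ hX.rev hY.rev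
  constructor
  · by_contra h3
    apply h2
    ext y
    simp only [Set.mem_union, Set.mem_compl_iff, Set.mem_univ, iff_true]
    by_contra h4
    push Not at h4
    exact h3 ⟨y, h4.1, h4.2⟩
  · intro h3
    have : x ∈ X ∪ Y := by rw [h3]; trivial
    rcases this with h | h
    · exact hx1 h
    · exact hx2 h

lemma Concl.rev (h : Concl tail head) : Concl head tail := by
  obtain ⟨𝒞, F, h1, h2, h3, h4, h5⟩ := h
  refine ⟨𝒞, F, fun C hC => ?_, h2, h3, h4, fun C hf hn hX => ?_⟩
  · obtain ⟨h6, h7, X, hX, rfl⟩ := h1 C hC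
    refine ⟨h6, h7, Xᶜ, fun a ha h8 => ha (hX a h8), ?_⟩
    ext a
    simp only [Set.mem_ofPred_eq, Set.mem_compl_iff, not_not]
    tauto
  · obtain ⟨X, hX, rfl⟩ := hX
    refine h5 _ hf hn ⟨Xᶜ, fun a ha h8 => ha (hX a h8), ?_⟩
    ext a
    simp only [Set.mem_ofPred_eq, Set.mem_compl_iff, not_not]
    tauto

/-- Cofinality. -/
lemma cof (hW : WC tail head) (hL : Lin tail head) {Z Y : Set V} (hZ : Good tail head Z)
    (hY : Closed tail head Y) (hYf : (dcut tail head Y).Finite) (hYn : Y.Nonempty)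
    (h : ∀ a ∈ dcut tail head Z, head a ∈ Y) : Z ⊆ Y := by
  intro z hz
  by_contra hzY
  have hG : Good tail head (Zᶜ ∪ Y) := by
    refine good_of hW ?_ (hYf.subset ?_) (hYn.mono Set.subset_union_right) ?_
    · rintro a ha
      by_contra h1
      simp only [Set.mem_union, Set.mem_compl_iff, not_or, not_not] at h1
      rcases ha with h2 | h2
      · exact h1.2 (hY a (h a ⟨h1.1, h2⟩))
      · exact h1.2 (hY a h2)
    · rintro a ⟨h1, h2⟩
      simp only [Set.mem_union, Set.mem_compl_iff, not_or, not_not] at h2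
      refine ⟨?_, h2.2⟩
      rcases h1 with h3 | h3
      · exact (h3 (hZ.1 a h2.1)).elim
      · exact h3
    · intro h1
      have : z ∈ Zᶜ ∪ Y := by rw [h1]; trivial
      rcases this with h2 | h2
      · exact h2 hz
      · exact hzY h2
  refine (hL Z _ hZ hG).2 ?_
  ext x
  simp only [Set.mem_union, Set.mem_compl_iff, Set.mem_univ, iff_true]
  tauto

lemma cof_pot (hW : WC tail head) (hL : Lin tail head) {p : V → ℤ} (hp : Pot tail head p)
    (h0 : ∃ x, p x = 0) {Z : Set V} (hZ : Good tail head Z) :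
    ∃ M : ℤ, ∀ x ∈ Z, p x < M := by
  obtain ⟨B, hB⟩ := (hZ.2.1.image (fun a => p (head a))).bddAbove
  refine ⟨max 0 B + 1, fun x hx => ?_⟩
  have h1 : Z ⊆ {x | p x < max 0 B + 1} := by
    refine cof hW hL hZ (fun a ha => lt_of_le_of_lt (hp.1 a).1 ha) ?_ ?_ ?_
    · refine (hp.2 (max 0 B + 1)).subset ?_
      rintro a ⟨h2, h3⟩
      exact ⟨h2, not_lt.1 h3⟩
    · obtain ⟨x, hx⟩ := h0
      refine ⟨x, ?_⟩
      simp only [Set.mem_ofPred_eq]
      omega
    · intro a ha
      have := hB ⟨a, ha, rfl⟩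
      simp only at this
      simp only [Set.mem_ofPred_eq]
      omega
  exact h1 hx

/-- The two-sided case. -/
theorem two (hW : WC tail head) (hL : Lin tail head)
    (hT : ∀ v, ∃ X, Good tail head X ∧ v ∈ X) (hS : ∀ v, ∃ X, Good tail head X ∧ v ∉ X) :
    Concl tail head := by
  classical
  by_cases hV : Nonempty V
  swap
  · refine ⟨∅, ∅, by simp, by simp, by simp, by simp, ?_⟩
    rintro C _ ⟨a, _⟩ _
    exact (hV ⟨tail a⟩).elim
  obtain ⟨v⟩ := hV
  obtain ⟨Y0, hY0, _⟩ := hT v
  obtain ⟨pR, hR, hR0, hRn, hRu, hRo⟩ := ray hW hL hT hY0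
  obtain ⟨pL, hLp, hL0, hLn, hLu, hLo⟩ := ray hW.rev hL.rev
    (fun v => by
      obtain ⟨X, hX, hv⟩ := hS v
      exact ⟨Xᶜ, hX.rev, hv⟩) hY0.rev
  have hdis : ∀ x, 1 ≤ pL x → pR x = 0 := by
    intro x hx
    apply hR0
    by_contra h
    have := hL0 x h
    omega
  have hdis2 : ∀ x, 1 ≤ pL x → x ∈ Y0 := by
    intro x hx
    by_contra h
    have := hL0 x h
    omega
  have hdis3 : ∀ x, 1 ≤ pR x → x ∉ Y0 := by
    intro x hx h
    have := hR0 x h
    omega
  -- bound on the oscillation over the boundary of `Y0`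
  obtain ⟨B, hB⟩ : ∃ B : ℤ, ∀ f : V → ℤ, Lip tail head f → ∀ a ∈ dcut tail head Y0,
      |f (head a) - f v| ≤ B := by
    choose L hL' using fun a : A => osc hW v (head a)
    obtain ⟨B, hB⟩ := (hY0.2.1.image L).bddAbove
    exact ⟨B, fun f hf a ha => (hL' a f hf).trans (hB ⟨a, ha, rfl⟩)⟩
  -- the optimal pair
  obtain ⟨k, ⟨N0, r0, s0, hN0, hs0, hs0S, hs0T, hk⟩, hmax⟩ :
      ∃ k : ℤ, (∃ (N r : ℤ) (f : V → ℤ), 1 ≤ N ∧ Pot tail head f ∧ (∀ x, N ≤ pL x → f x = 0) ∧
        (∀ x, N ≤ pR x → f x = r) ∧ k = r - 2 * N) ∧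
      ∀ k' : ℤ, (∃ (N r : ℤ) (f : V → ℤ), 1 ≤ N ∧ Pot tail head f ∧
        (∀ x, N ≤ pL x → f x = 0) ∧ (∀ x, N ≤ pR x → f x = r) ∧ k' = r - 2 * N) → k' ≤ k := by
    refine Int.exists_greatest_of_bdd ⟨2 * B + 1, ?_⟩
      ⟨0 - 2 * 1, 1, 0, fun _ => 0, le_rfl, pot_const 0, fun _ _ => rfl, fun _ _ => rfl, rfl⟩
    rintro _ ⟨N, r, f, hN, hf, hfS, hfT, rfl⟩
    -- right part
    have hfR : Pot tail head (fun x => if x ∈ Y0 then 0 else max (f x - (f v + B)) 0) := by
      refine ⟨fun a => ?_, fun i => ?_⟩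
      · have h1 := hf.1 a
        by_cases ht : tail a ∈ Y0 <;> by_cases hh : head a ∈ Y0
        · simp [ht, hh]
        · have h2 := hB f hf.1 a ⟨ht, hh⟩
          rw [abs_le] at h2
          simp only [ht, hh, if_true, if_false]
          omega
        · exact (ht (hY0.1 a hh)).elim
        · simp only [ht, hh, if_false]
          omega
      · refine (hf.2 (i + (f v + B))).subset ?_
        rintro a ⟨h1, h2⟩
        simp only [Set.mem_ofPred_eq] at h1 h2 ⊢
        by_cases ht : tail a ∈ Y0 <;> by_cases hh : head a ∈ Y0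
        · simp only [ht, hh, if_true] at h1 h2
          omega
        · have h3 := hB f hf.1 a ⟨ht, hh⟩
          rw [abs_le] at h3
          simp only [ht, hh, if_true, if_false] at h1 h2
          omega
        · exact (ht (hY0.1 a hh)).elim
        · simp only [ht, hh, if_false] at h1 h2
          omega
    have e1 := hRo N hN _ (max (r - (f v + B)) 0) hfR (fun x hx => by simp [hx])
      (fun x hx => by rw [if_neg (hdis3 x (by omega)), hfT x hx])
    -- left part
    have hfL : Pot tail head (fun x => if x ∈ Y0 then min (f x - (f v - B - 1)) 0 else 0) := by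
      refine ⟨fun a => ?_, fun i => ?_⟩
      · have h1 := hf.1 a
        by_cases ht : tail a ∈ Y0 <;> by_cases hh : head a ∈ Y0
        · simp only [ht, hh, if_true]
          omega
        · have h2 := hB f hf.1 a ⟨ht, hh⟩
          rw [abs_le] at h2
          simp only [ht, hh, if_true, if_false]
          omega
        · exact (ht (hY0.1 a hh)).elim
        · simp [ht, hh]
      · refine (hf.2 (i + (f v - B - 1))).subset ?_
        rintro a ⟨h1, h2⟩
        simp only [Set.mem_ofPred_eq] at h1 h2 ⊢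
        by_cases ht : tail a ∈ Y0 <;> by_cases hh : head a ∈ Y0
        · simp only [ht, hh, if_true] at h1 h2
          omega
        · have h3 := hB f hf.1 a ⟨ht, hh⟩
          rw [abs_le] at h3
          have h4 := hf.1 a
          simp only [ht, hh, if_true, if_false] at h1 h2
          omega
        · exact (ht (hY0.1 a hh)).elim
        · simp only [ht, hh, if_false] at h1 h2
          omega
    have e2 := hLo N hN _ (max (f v - B - 1) 0) (pot_neg hfL) (fun x hx => by
        rw [if_neg (by simpa using hx)]; simp)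
      (fun x hx => by
        rw [if_pos (hdis2 x (by omega)), hfS x hx]
        omega)
    omega
  have hr0 : 0 ≤ r0 := by
    have := hmax (0 - 2 * 1) ⟨1, 0, fun _ => 0, le_rfl, pot_const 0, fun _ _ => rfl,
      fun _ _ => rfl, rfl⟩
    omega
  -- the final potential
  set p : V → ℤ := fun x => if N0 ≤ pL x then N0 - pL x else
    if N0 ≤ pR x then r0 + pR x - N0 else s0 x with hp
  have hpL : ∀ x, N0 ≤ pL x → p x = N0 - pL x := fun x hx => by simp [hp, hx]
  have hpR : ∀ x, N0 ≤ pR x → p x = r0 + pR x - N0 := by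
    intro x hx
    have h1 : ¬ N0 ≤ pL x := by
      intro h
      have := hdis x (by omega)
      omega
    simp [hp, hx, h1]
  have hpP : Pot tail head p := by
    refine ⟨fun a => ?_, fun i => ?_⟩
    · have h1 := hR.1 a
      have h2 := hLp.1 a
      have h3 := hs0.1 a
      have h4 := hs0S (tail a)
      have h5 := hs0S (head a)
      have h6 := hs0T (tail a)
      have h7 := hs0T (head a)
      have h8 := hdis (tail a)
      have h9 := hdis (head a)
      simp only [hp]
      split_ifs <;> omega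
    · refine (((hs0.2 i).union (hR.2 (i - r0 + N0))).union ((pot_neg hLp).2 (i - N0))).subset ?_
      rintro a ⟨h1', h2'⟩
      have h1 := hR.1 a
      have h2 := hLp.1 a
      have h3 := hs0.1 a
      have h4 := hs0S (tail a)
      have h5 := hs0S (head a)
      have h6 := hs0T (tail a)
      have h7 := hs0T (head a)
      have h8 := hdis (tail a)
      have h9 := hdis (head a)
      simp only [Set.mem_union, Set.mem_ofPred_eq]
      simp only [hp] at h1' h2'
      split_ifs at h1' h2' <;> omega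
  refine concl_of_pot p hpP ?_ (fun N => {x | N0 + N ≤ pL x}) (fun N => {x | N0 + N ≤ pR x})
    ?_ ?_ (fun N => -N) (fun N => r0 + N) ?_ ?_ ?_ ?_
  · intro i
    by_contra hcon
    push Not at hcon
    obtain ⟨x, hx⟩ := hLu (max N0 (N0 - i + 1))
    obtain ⟨y, hy⟩ := hRu (max N0 (i - r0 + N0))
    have h1 : {x | p x < i} = Set.univ := by
      refine hW _ ⟨x, ?_⟩ (fun a ha => lt_of_le_of_lt (hpP.1 a).1 ha) ?_
      · have := hpL x (by omega)
        simp only [Set.mem_ofPred_eq]
        omega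
      · ext a
        simp only [Set.mem_empty_iff_false, iff_false]
        rintro ⟨h2, h3⟩
        exact h3 (hcon a h2)
    have h2 : y ∈ {x | p x < i} := by rw [h1]; trivial
    have h3 := hpR y (by omega)
    simp only [Set.mem_ofPred_eq] at h2
    omega
  · intro N
    obtain ⟨x, hx⟩ := hRu (N0 + N)
    exact ⟨x, hx⟩
  · intro Z hZ
    have h0R : ∃ x, pR x = 0 := by
      obtain ⟨x, hx⟩ := hY0.nonempty
      exact ⟨x, hR0 x hx⟩
    have h0L : ∃ x, pL x = 0 := by
      obtain ⟨x, hx⟩ := hY0.compl_nonempty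
      exact ⟨x, hL0 x hx⟩
    obtain ⟨M1, hM1⟩ := cof_pot hW hL hR h0R hZ
    obtain ⟨M2, hM2⟩ := cof_pot hW.rev hL.rev hLp h0L hZ.rev
    refine ⟨(max M1 M2).toNat, fun N hN => ⟨fun x hx => ?_, fun x hx h => ?_⟩⟩
    · by_contra h
      have h1 := hM2 x h
      simp only [Set.mem_ofPred_eq] at hx
      omega
    · have h1 := hM1 x h
      simp only [Set.mem_ofPred_eq] at hx
      omega
  · intro N x hx
    simp only [Set.mem_ofPred_eq] at hx
    have := hpL x (by omega)
    omega
  · intro N x hx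
    simp only [Set.mem_ofPred_eq] at hx
    have := hpR x (by omega)
    omega
  · intro N
    omega
  · intro N f r hf hfS hfT
    have := hmax (r - 2 * (N0 + N)) ⟨N0 + N, r, f, by omega, hf, hfS, hfT, rfl⟩
    omega

end Pool.Agent.LYL
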